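import Mathlib
import Pool.Agent.H925R3.DD.Stubs

/-! Task PADIC (helper485): the valuation ring of an embedding in `ℚ_p`. -/

set_option autoImplicit false

namespace Pool.Agent.Helper485.DDPADIC

open Pool.Agent.H925R3.DD

theorem padic : Pool.Agent.H925R3.DD.PADIC := by
  intro p _ K _ σ
  let O : Subring K := (PadicInt.subring p).comap σ
  let ψ : O →+* PadicInt.subring p :=
    (σ.comp O.subtype).codRestrict (PadicInt.subring p) (fun x => x.2)
  let ψ' : O →+* ℤ_[p] := ψ
  have hψ : ∀ x : O, ((ψ' x : ℤ_[p]) : ℚ_[p]) = σ x := fun x => rfl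
  refine ⟨O, (PadicInt.toZMod (p := p)).comp ψ', ?_, ?_⟩
  · intro x
    by_cases h : ‖σ x‖ ≤ 1
    · left
      exact h
    · right
      show ‖σ x⁻¹‖ ≤ 1
      rw [map_inv₀, norm_inv]
      exact inv_le_one_of_one_le₀ (not_le.1 h).le
  · intro x hx
    have h1 : ψ' x ∉ IsLocalRing.maximalIdeal ℤ_[p] := by
      rw [← PadicInt.ker_toZMod]
      exact hx
    have h2 : IsUnit (ψ' x) := by
      by_contra h3
      exact h1 h3
    have h3 := PadicInt.isUnit_iff.1 h2
    have h4 : ‖σ x‖ = 1 := h3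
    show ‖σ (x : K)⁻¹‖ ≤ 1
    rw [map_inv₀, norm_inv, h4, inv_one]

end Pool.Agent.Helper485.DDPADIC
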